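import Pool.Agent.Results.MP_0bf1d2_nt.LinearFormsAndRecurrences

/-!
# Schinzel's Goldbach-type hypothesis for `F₁ = x + a`, `G = x + b`: trajectories of the `3 x + 1` map

For two linear polynomials `F₁ = x + a` and `G = x + b` the formula of the hypothesis predicts `Q₁(N) ~ 𝔖(N) N / log² N`, where
`𝔖(N)` is the singular series of the even number `N + a - b` (`N` is admissible if and only if `N + a - b` is even). In the
simplest instance `F₁ = G` of the problem this number is `N` itself.

Let `T(x) = x / 2` for even and `T(x) = (q x + c) / 2` for odd `x` (`q`, `c` odd and coprime; `q = 3`, `c = 1` is the map of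
Collatz). For almost all starting values `m`, ALL the admissible numbers `N > |a| + |b|` for which `N + a - b` is one of the
first `κ log m` members `T^k(m)` of the trajectory of `m`, or a multiple `u T^k(m)`, `u ≤ (log m)^U`, satisfy the predicted
formula for `Q₁(N)` up to the factor `1 ± ε`, also in windows of length at least `N / (log N)^A`, if
`κ < 1 / (log 2 + (log q) / 4)`, and the lower bounds with `1 / 21` of the prediction, if `κ < 1 / (log 2 + 3 (log q) / 14)`.
The exceptional set has at most `M / (log M)^B` elements up to `M`, for every `B`. For the map of Collatz one can take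
`κ = 1.03` and `κ = 1.07`; for `F₁ = G = x` this says: all the even members of the first seventh of almost every trajectory are
sums of two primes.

Definitions used: from `Run7/h469/Tm`: `T q c`, `exceptionalStarts q c P κ U M` (the `m ≤ M` for which `P (u * T^k(m))` is
false for some `k ≤ κ log M`, `1 ≤ u ≤ (log M)^U`), `AlmostAll`; from the starting files
`AsymptoticEveryModulus.Good ε A a b N`: `Q₁(N)` is the predicted number up to the factor `1 ± ε`, and the same is true in all
windows of length at least `N / (log N)^A`; `LinearSystemsEveryModulus.Good A a b N`: the same with the lower bounds `1 / 21`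
of the prediction; `BothPrime a b N n`: `n + a` and `N - (n + b)` are primes.

Proof. On a residue class `r` modulo `2^k` the map `T^k` is affine, `T^k(2^k v + r) = q^j v + T^k(r)`, where `j` is the number
of the odd members among the first `k` members, and `T^k(r)` is prime to `q` if `j > 0`. So the `k`-th members of the
trajectories that start in this class run through a residue class of the large modulus `q^j` which is prime to the modulus.
The theorems on Goldbach pairs in all residue classes of all moduli up to `x^(2/3 - ρ)` and `x^(7/10 - ρ)` of the starting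
files (`R460/GH`, `R460/GS`) can be applied if `j` is not much larger than `k / 2`; the other classes are few, by the identity
`∑_r z^(j(r)) = (1 + z)^k`.
-/

set_option autoImplicit false

namespace Pool.Agent.Results.MP_0bf1d2_nt.CollatzTrajectories

open Finset
open Run7.h469.CT (Few)
open Run7.h469.Tm (T AlmostAll exceptionalStarts starts_two_thirds starts_seven_tenths collatz_seven_tenths)

/-- All the admissible `N > |a| + |b|` with `N + a - b = M` satisfy the asymptotic formula. -/
def AsymptoticAt (ε : ℝ) (A : ℕ) (a b : ℤ) (M : ℕ) : Prop :=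
  ∀ N : ℕ, (N : ℤ) + a - b = M → Even ((N : ℤ) + a - b) → a.natAbs + b.natAbs < N →
    AsymptoticEveryModulus.Good ε A a b N

/-- All the admissible `N > |a| + |b|` with `N + a - b = M` satisfy the lower bounds. -/
def LowerAt (A : ℕ) (a b : ℤ) (M : ℕ) : Prop :=
  ∀ N : ℕ, (N : ℤ) + a - b = M → Even ((N : ℤ) + a - b) → a.natAbs + b.natAbs < N →
    LinearSystemsEveryModulus.Good A a b N

theorem few_asymptotic (ε : ℝ) (hε : 0 < ε) (A : ℕ) (a b : ℤ) : Few (2 / 3) (AsymptoticAt ε A a b) := by
  refine Run7.h469.Tm.few_mono ?_ (LinearFormsAndRecurrences.few_asymptotic ε hε A a b)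
  intro m h N h1 h2 h3
  refine h N ?_ h2 h3
  rw [← h1]
  push_cast
  ring

theorem few_lower (A : ℕ) (a b : ℤ) : Few (7 / 10) (LowerAt A a b) := by
  refine Run7.h469.Tm.few_mono ?_ (LinearFormsAndRecurrences.few_lower A a b)
  intro m h N h1 h2 h3
  refine h N ?_ h2 h3
  rw [← h1]
  push_cast
  ring

theorem exists_of_good {A : ℕ} {a b : ℤ} {N : ℕ}
    (h : LinearSystemsEveryModulus.Good A a b N) (h2 : 2 < N) :
    ∃ n : ℕ, 0 < n ∧ LinearSystemsEveryModulus.BothPrime a b N n := by
  have h1 := h.1
  have hS : 1 ≤ LinearSystemsEveryModulus.S a b N := by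
    unfold LinearSystemsEveryModulus.S
    exact Pool.Agent.R460.GS.one_le_sing _
  have hlog : 0 < Real.log N := Real.log_pos (by exact_mod_cast (by omega : 1 < N))
  have hN0 : (0 : ℝ) < N := by exact_mod_cast (by omega : 0 < N)
  have h3 : (0 : ℝ) < LinearSystemsEveryModulus.Q₁ a b N := lt_of_lt_of_le (by positivity) h1
  have h4 : 0 < LinearSystemsEveryModulus.Q₁ a b N := by exact_mod_cast h3
  unfold LinearSystemsEveryModulus.Q₁ at h4
  by_contra hcon
  push Not at hcon
  have h5 : {n : ℕ | 0 < n ∧ LinearSystemsEveryModulus.BothPrime a b N n} = ∅ := by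
    ext n
    simp only [Set.mem_setOf_eq, Set.mem_empty_iff_false, iff_false, not_and]
    exact hcon n
  rw [h5, Set.ncard_empty] at h4
  exact absurd h4 (lt_irrefl 0)

/-- **Trajectories.** Let `a`, `b` be integers, `F₁ = x + a`, `G = x + b`.
(1) Let `q`, `c` be odd and coprime, `κ (log 2 + (log q) / 4) < 1`. For all large `M` and all `m ≤ M` with at most
`M / (log M)^B` exceptions ALL the admissible `N > |a| + |b|` with `N + a - b = u T^k(m)`, `k ≤ κ log M`,
`1 ≤ u ≤ (log M)^U`, satisfy the predicted asymptotic formula (up to the factor `1 ± ε`, also in windows).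
(2) The same with the lower bounds, if only `κ (log 2 + (3 / 14) log q) < 1`.
(3) In particular for almost all `m` for all the admissible `N > |a| + |b| + 2` with `N + a - b = u T^k(m)`,
`k ≤ 1.07 log m`, `1 ≤ u ≤ (log m)^U`, where `T(x) = x / 2` or `(3 x + 1) / 2`, there is an `n > 0` for which `F₁(n)` and
`N - G(n)` are primes. -/
theorem result (a b : ℤ) :
    (∀ q c : ℕ, Odd q → Odd c → Nat.Coprime c q → ∀ κ ε : ℝ, 0 < ε → κ * (Real.log 2 + 1 / 4 * Real.log q) < 1 →
      ∀ A B U : ℕ, ∃ M₀ : ℕ, ∀ M : ℕ, M₀ ≤ M →
        ((exceptionalStarts q c (AsymptoticAt ε A a b) κ U M).card : ℝ) ≤ M / Real.log M ^ B) ∧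
    (∀ q c : ℕ, Odd q → Odd c → Nat.Coprime c q → ∀ κ : ℝ, κ * (Real.log 2 + 3 / 14 * Real.log q) < 1 →
      ∀ A B U : ℕ, ∃ M₀ : ℕ, ∀ M : ℕ, M₀ ≤ M →
        ((exceptionalStarts q c (LowerAt A a b) κ U M).card : ℝ) ≤ M / Real.log M ^ B) ∧
    ∀ U : ℕ, AlmostAll (fun m => ∀ k u N : ℕ, (k : ℝ) ≤ 107 / 100 * Real.log m → 1 ≤ u → (u : ℝ) ≤ Real.log m ^ U →
      (N : ℤ) + a - b = (u * (T 3 1)^[k] m : ℕ) → Even ((N : ℤ) + a - b) → a.natAbs + b.natAbs + 2 < N →
        ∃ n : ℕ, 0 < n ∧ LinearSystemsEveryModulus.BothPrime a b N n) := by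
  refine ⟨fun q c hq hc hcq κ ε hε hκ A B U => ?_, fun q c hq hc hcq κ hκ A B U => ?_, fun U => ?_⟩
  · exact starts_two_thirds q c hq hc hcq κ hκ _ (few_asymptotic ε hε A a b) B U
  · exact starts_seven_tenths q c hq hc hcq κ hκ _ (few_lower A a b) B U
  · refine AlmostAll.mono ?_ (collatz_seven_tenths _ (few_lower 0 a b) U)
    intro m h k u N h1 h2 h3 h4 h5 h6
    exact exists_of_good (h k u h1 h2 h3 N h4 h5 (by omega)) (by omega)

end Pool.Agent.Results.MP_0bf1d2_nt.CollatzTrajectories
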