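import Pool.Agent.Run7.h414.DP.Fam
import Pool.Agent.Run7.h414.DP.TL
import Pool.Agent.Results.MP_0bf1d2_nt.ExchangeableDigitsAllSlopes

/-!
# The asymptotic formula of Schinzel for `q` and `N - m q` prime, with almost prime companions, for random integers with determinantal digits

The digits of the random integer `v` are given by a determinantal random set `S` of positions (a determinantal point process
with an arbitrary Hermitian kernel): the digit number `i` is `y i` if `i ∈ S` and `x i ≠ y i` otherwise. Examples (their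
existence is not used and not formalised): the edges of a uniform spanning tree of a graph with `k` edges; stationary
determinantal processes with any symbol which is not almost everywhere `0` or almost everywhere `1` (for example the discrete
sine process with any density); independent digits; and all the events for such processes whose probability is at least
`1 / k ^ t`, for example a prescribed number of elements of `S`.

Definitions used (in `Pool.Agent.Run7.h414.DP.Law` and `Pool.Agent.Run7.h414.DP.Fam`): `DetLaw`, `GoodPos`, `DetDigits`.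

Method: the characteristic function is `det (1 + D A)`; the inequality `|det N|² ≤ exp (tr N* N - k)` for
`N = 1 + B D B*`, `A = B* B`, bounds it by `exp (- E)` with an energy `E` which is at least a constant times the number of
the good positions near the places where the frequency is far from the rational numbers with small denominators. So all the
multiples of the random integer have a thin large spectrum. The passage from this to the
formula is from the starting files (`Pool.Agent.N625.PT.t_gen`, `Pool.Agent.N625.PT.det_PF`).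

The functions `count`, `expected` and the condition `NoFixedDivisor` are defined in the starting file
`Pool.Agent.Results.MP_0bf1d2_nt.ExchangeableDigitsAllSlopes`; `∑ v ∈ range (b ^ k), (if P v then 0 else p v)` is the
`p`-weight of the integers `v < b ^ k` without the property `P`.
-/

set_option autoImplicit false

namespace Pool.Agent.Results.MP_0bf1d2_nt.DeterminantalDigitsAllSlopes
open Finset Polynomial
open Pool.Agent.Run7.h414.DP (DC DC_nonneg DetDigits fam_dc dom_le dc_tcls)
open Pool.Agent.Results.MP_0bf1d2_nt.ExchangeableDigitsAllSlopes (count expected NoFixedDivisor count_eq expected_eq noFixed_of)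

open Classical in
/-- the theorem for the distributions of the integers with determinantal digits (after the starting file) -/
theorem main (D : ℕ) (ε : ℝ) (hε : 0 < ε) : ∃ K : ℕ, 1 ≤ K ∧ ∀ (g : ℕ) (F : Fin g → ℤ[X]), (∀ i, 1 ≤ (F i).natDegree) →
    (∀ i, 0 < (F i).leadingCoeff) → ∑ i, (F i).natDegree ≤ D → ∀ (b L : ℕ), 2 ≤ b → ∀ η : ℝ, 0 < η →
    ∀ κ : ℤ, κ ≠ 0 → ∀ A B J W U : ℕ, ∃ k₀ : ℕ, ∀ k : ℕ, k₀ ≤ k → ∀ p : ℕ → ℝ, DC b L η k p →
    ∀ c : ℤ, |c| ≤ B * (b : ℤ) ^ k → ∀ y : ℕ, y ^ K ≤ b ^ k → b ^ k ≤ y ^ A →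
      ∑ v ∈ range (b ^ k), (if ∀ q : ℤ, |q - (c + κ * v)| ≤ (k : ℤ) ^ W → ∀ h : ℕ, 1 ≤ h → h ≤ k ^ J →
        ∀ N : ℕ, 0 < N → |(N : ℤ) - h * q| ≤ (k : ℤ) ^ W → ∀ m : ℕ, 1 ≤ m → m ≤ k ^ J → NoFixedDivisor F m N →
          |count F m N y - expected F m N y| ≤ ε * expected F m N y then 0 else p v) ≤ 1 / (k : ℝ) ^ U := by
  obtain ⟨K, hK, hmain⟩ := Pool.Agent.N625.PT.det_PF (D + 1) ε hε
  refine ⟨2 * K, by omega, fun g F hF hFl hD b L hb η hη0 κ hκ A B J W U => ?_⟩
  have hdet := hmain g F hF hFl (by omega) (J + 1) (2 * A)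
  have hC := dc_tcls b L hb η hη0 κ hκ
  obtain ⟨k₀, hmain2⟩ := Pool.Agent.N625.PT.t_gen hC B J W (U + J + 0 + 1) _ _ hdet
  obtain ⟨z0, hz0⟩ : ∃ z0 : ℕ, z0 = 2 ^ (J + 1) := ⟨_, rfl⟩
  refine ⟨k₀ + z0 + 2 * K + 4, fun k hk p hp c hc y hyK hyA => ?_⟩
  have hk2 : 2 ^ (J + 1) ≤ k := by rw [← hz0]; omega
  have hk4 : 4 ≤ k := by omega
  refine Pool.Agent.N625.PT.union J 0 U k (by omega) (b ^ k) p (DC_nonneg hp)
    (fun m _ v => ¬ ∀ q : ℤ, |q - (c + κ * v)| ≤ (k : ℤ) ^ W → ∀ h : ℕ, 1 ≤ h → h ≤ k ^ J →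
        ∀ N : ℕ, 0 < N → |(N : ℤ) - h * q| ≤ (k : ℤ) ^ W → NoFixedDivisor F m N →
          |count F m N y - expected F m N y| ≤ ε * expected F m N y) _ ?_ ?_
  · intro v hv
    by_contra hcon
    apply hv
    intro q hq h hh1 hh2 N hN0 hN m hm1 hm2 hNF
    by_contra hbad
    apply hcon
    refine ⟨m, hm1, hm2, 0, by simp, ?_⟩
    intro hall
    exact hbad (hall q hq h hh1 hh2 N hN0 hN hNF)
  · intro m hm1 hm2 _ _
    have hAd : ∀ K' : ℕ, k ≤ K' → K' ≤ 2 * k → Pool.Agent.N625.PT.AdP (J + 1) K (2 * A) (b ^ K') (m, y) := by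
      intro K' hK1 hK2
      refine ⟨hm1, ?_, ?_, ?_⟩
      · simp only
        have hbr : (2 : ℝ) ≤ b := by exact_mod_cast hb
        have hl : (k : ℝ) / 2 ≤ Real.log ((b ^ K' : ℕ) : ℝ) := by
          push_cast
          rw [Real.log_pow]
          have g1 : (1 : ℝ) / 2 ≤ Real.log b := by
            have := Real.log_two_gt_d9
            have := Real.log_le_log (by norm_num) hbr
            linarith
          have g2 : (k : ℝ) ≤ K' := by exact_mod_cast hK1
          have g3 : (0 : ℝ) ≤ k := Nat.cast_nonneg _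
          nlinarith
        have hk0 : (0 : ℝ) < k := by exact_mod_cast (by omega : 0 < k)
        calc (m : ℝ) ≤ (k : ℝ) ^ J := by exact_mod_cast hm2
          _ ≤ ((k : ℝ) / 2) ^ (J + 1) := by
              rw [div_pow, le_div_iff₀ (by positivity), pow_succ (k : ℝ)]
              apply mul_le_mul_of_nonneg_left _ (by positivity)
              exact_mod_cast hk2
          _ ≤ Real.log ((b ^ K' : ℕ) : ℝ) ^ (J + 1) := pow_le_pow_left₀ (by positivity) hl _
      · simp only
        exact hyK.trans (Nat.pow_le_pow_right (by omega) hK1)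
      · simp only
        calc b ^ K' ≤ b ^ (2 * k) := Nat.pow_le_pow_right (by omega) hK2
          _ = (b ^ k) ^ 2 := by rw [← pow_mul]; congr 1; ring
          _ ≤ (y ^ A) ^ 2 := Nat.pow_le_pow_left hyA 2
          _ = y ^ (2 * A) := by rw [← pow_mul]; congr 1; ring
    refine le_trans (le_of_eq ?_) (hmain2 k (by omega) p hp c hc (m, y) hAd
      (fun v => ∀ q : ℤ, |q - (c + κ * v)| ≤ (k : ℤ) ^ W → ∀ h : ℕ, 1 ≤ h → h ≤ k ^ J →
        ∀ N : ℕ, 0 < N → |(N : ℤ) - h * q| ≤ (k : ℤ) ^ W → NoFixedDivisor F m N →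
          |count F m N y - expected F m N y| ≤ ε * expected F m N y) ?_)
    · apply sum_congr rfl
      intro v _
      by_cases hv : ∀ q : ℤ, |q - (c + κ * v)| ≤ (k : ℤ) ^ W → ∀ h : ℕ, 1 ≤ h → h ≤ k ^ J →
        ∀ N : ℕ, 0 < N → |(N : ℤ) - h * q| ≤ (k : ℤ) ^ W → NoFixedDivisor F m N →
          |count F m N y - expected F m N y| ≤ ε * expected F m N y
      · rw [if_neg (not_not.2 hv), if_pos hv]
      · rw [if_pos hv, if_neg hv]
    intro v hv
    push Not at hv
    obtain ⟨q, hq, h, hh1, hh2, N, hN0, hN, hNF, hbad⟩ := hv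
    refine ⟨h, hh1, hh2, q - (c + κ * v), hq, (N : ℤ) - h * q, hN, ?_, ?_⟩
    · have e1 : (h : ℤ) * (c + (q - (c + κ * v)) + κ * v) + ((N : ℤ) - h * q) = N := by ring
      rw [e1]
      exact_mod_cast hN0
    · have e1 : (h : ℤ) * (c + (q - (c + κ * v)) + κ * v) + ((N : ℤ) - h * q) = N := by ring
      rw [e1, Int.toNat_natCast]
      intro hP
      have h5 := hP (noFixed_of F m N hNF)
      simp only at h5
      rw [← count_eq, ← expected_eq] at h5
      linarith

open Classical in
/-- Let `D` and `ε > 0` be given. There is `K` with the following property. Let `F_1, ..., F_g` be any polynomials with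
integer coefficients, not constant, with positive leading coefficients and degrees of sum at most `D`. Let `p` be dominated,
up to the factor `k ^ t`, by the distribution of an integer with `k` determinantal digits (`DetDigits b L η t k p`), and
let `y` be given with `y ^ K ≤ b ^ k` and `b ^ k ≤ y ^ A`. The `p`-weight of the integers `v < b ^ k` without the following
property is at most `1 / k ^ U`: for ALL the positive integers `N` with `|N - h q| ≤ k ^ W` for some `q` with
`|q - (c + κ v)| ≤ k ^ W` and some `1 ≤ h ≤ k ^ J`, and for ALL `1 ≤ m ≤ k ^ J`: if `n F_1(n) ... F_g(n) (N - m n)` has no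
fixed prime divisor, the weighted number of the primes `q` such that `N - m q` is prime and the `F_i(q)` have no prime
factor `≤ y` differs from its expected value by at most the fraction `ε`. -/
theorem result (D : ℕ) (ε : ℝ) (hε : 0 < ε) : ∃ K : ℕ, 1 ≤ K ∧ ∀ (g : ℕ) (F : Fin g → ℤ[X]), (∀ i, 1 ≤ (F i).natDegree) →
    (∀ i, 0 < (F i).leadingCoeff) → ∑ i, (F i).natDegree ≤ D → ∀ (b L : ℕ), 2 ≤ b → ∀ η : ℝ, 0 < η →
    ∀ (t : ℕ) (κ : ℤ), κ ≠ 0 → ∀ A B J W U : ℕ, ∃ k₀ : ℕ, ∀ k : ℕ, k₀ ≤ k → ∀ p : ℕ → ℝ, DetDigits b L η t k p →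
    ∀ c : ℤ, |c| ≤ B * (b : ℤ) ^ k → ∀ y : ℕ, y ^ K ≤ b ^ k → b ^ k ≤ y ^ A →
      ∑ v ∈ range (b ^ k), (if ∀ q : ℤ, |q - (c + κ * v)| ≤ (k : ℤ) ^ W → ∀ h : ℕ, 1 ≤ h → h ≤ k ^ J →
        ∀ N : ℕ, 0 < N → |(N : ℤ) - h * q| ≤ (k : ℤ) ^ W → ∀ m : ℕ, 1 ≤ m → m ≤ k ^ J → NoFixedDivisor F m N →
          |count F m N y - expected F m N y| ≤ ε * expected F m N y then 0 else p v) ≤ 1 / (k : ℝ) ^ U := by
  obtain ⟨K, hK, h1⟩ := main D ε hε
  refine ⟨K, hK, fun g F hF hFl hD b L hb η hη t κ hκ A B J W U => ?_⟩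
  obtain ⟨k₀, h2⟩ := h1 g F hF hFl hD b L hb η hη κ hκ A B J W (U + t)
  refine ⟨k₀ + 1, fun k hk p hp c hc y hyK hyA => ?_⟩
  obtain ⟨μ, hμ, hpμ⟩ := fam_dc hp
  exact dom_le (by omega) hpμ _ _ (fun v h => h) (h2 k (by omega) μ hμ c hc y hyK hyA)

end Pool.Agent.Results.MP_0bf1d2_nt.DeterminantalDigitsAllSlopes
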