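import Pool.Agent.Run7.h469.Af
import Pool.Agent.Results.MP_0bf1d2_nt.AsymptoticEveryModulus
import Pool.Agent.Results.MP_0bf1d2_nt.LinearSystemsEveryModulus

/-!
# Schinzel's Goldbach-type hypothesis for `F₁ = x + a`, `G = x + b`: values `N` of linear forms with large coefficients,
# linear recurrences

For two linear polynomials `F₁ = x + a` and `G = x + b` the formula of the hypothesis predicts `Q₁(N) ~ 𝔖(N) N / log² N`, where
`𝔖(N)` is the singular series of the even number `N + a - b` (`N` is admissible if and only if `N + a - b` is even).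

Let `d ≥ 1`. For EVERY linear form `c · w + e` in `d` variables whose integer coefficients `c_i` have at most `(log X)^U` as
their greatest common divisor and are at most `X^(2 - η)`, and for all vectors `w` of `[1, X]^d` with at most
`X^d / (log X)^B` exceptions, ALL the admissible values `N > |a| + |b|` of the form satisfy the predicted formula for
`Q₁(N)` up to the factor `1 ± ε`, also in windows of length at least `N / (log N)^A`; for the lower bound with `1 / 21` of the
predicted number the coefficients can be as large as `X^(7/3 - η)`. For `d = 2` the `X^2` values of such a form are spread over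
an interval of length `X^(3 - η)` (`X^(10/3 - η)`): they are two-dimensional generalised progressions of density `N^(-1/3)`.
The same holds for all members of a family of `(log X)^U` forms at once.

In particular, let `s`, `t` be coprime positive integers (`s = t = 1`: generalised Fibonacci sequences). For all pairs
`(x_0, x_1)` in `[1, X]^2` with at most `X^2 / (log X)^B` exceptions ALL the members `x_k ≤ X^(3 - η)` of the sequence
`x_(k + 2) = s x_(k + 1) + t x_k`, all their multiples by numbers up to `(log X)^U` and all the integers within `(log X)^U`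
of these satisfy this, if they are admissible; the members `x_k ≤ X^(10/3 - η)` satisfy the lower bound.

Definitions used: from `Run7/h469/Tm`: `Admissible` (the conditions on a form), `exceptionalVectors`, `seq`,
`exceptionalPairs`; from the starting files `AsymptoticEveryModulus.Good ε A a b N`: `Q₁(N)` is the predicted number up to the
factor `1 ± ε`, and the same is true in all windows of length at least `N / (log N)^A`; `LinearSystemsEveryModulus.Good A a b N`:
the same with the lower bounds `1 / 21` of the prediction.

Proof. There is a vector `h` with coordinates at most `X^σ` such that `q = |c · h|` is large and such that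
`c · w + e + a - b` has only a small common divisor with `q` for almost all `w`. (For the small divisors one takes the mean
value over `h`; for the larger ones some coordinate of `w` is determined modulo a large number.) The box is a union of
progressions `w_0 + t h`, on which the form runs through residue classes modulo `q`, and the theorems on Goldbach pairs in
all residue classes of all moduli up to `x^(2/3 - ρ)` and `x^(7/10 - ρ)` of the starting files (`R460/GH`, `R460/GS`) can be
applied.
-/

set_option autoImplicit false

namespace Pool.Agent.Results.MP_0bf1d2_nt.LinearFormsAndRecurrences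

open Finset
open Run7.h469.CT (Few)
open Run7.h469.Tm (Aff Admissible vectors_affine pairs_affine exceptionalVectors exceptionalPairs)

/-- If `N` is admissible (`N + a - b` is even) and greater than `|a| + |b|`, then the asymptotic formula holds for `N`. -/
def Asymptotic (ε : ℝ) (A : ℕ) (a b : ℤ) (N : ℕ) : Prop :=
  Even ((N : ℤ) + a - b) → a.natAbs + b.natAbs < N → AsymptoticEveryModulus.Good ε A a b N

/-- If `N` is admissible (`N + a - b` is even) and greater than `|a| + |b|`, then the lower bound holds for `N`. -/
def Lower (A : ℕ) (a b : ℤ) (N : ℕ) : Prop :=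
  Even ((N : ℤ) + a - b) → a.natAbs + b.natAbs < N → LinearSystemsEveryModulus.Good A a b N

theorem few_asymptotic (ε : ℝ) (hε : 0 < ε) (A : ℕ) (a b : ℤ) :
    Few (2 / 3) (Aff 1 (a - b) (Asymptotic ε A a b)) := by
  obtain ⟨δ, hδ, N₁, hN1, h1⟩ := AsymptoticEveryModulus.good_of ε hε A a b
  have h2 : Few (2 / 3) (fun m => Even m → Aff 1 (a - b) (Asymptotic ε A a b) m) := by
    apply Run7.h469.Tm.few_even
    intro ρ hρ B T
    refine Pool.Agent.R460.GH.class_asymp _ δ hδ (A + 1) ⟨N₁ + a.natAbs + b.natAbs, ?_⟩ ρ hρ B T
    intro m hm _ hw n hn _ _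
    have e : ((n : ℤ) + a - b).toNat = m := by
      have : (n : ℤ) + a - b = m := by
        rw [← hn]
        push_cast
        ring
      rw [this]
      exact Int.toNat_natCast m
    apply h1 n
    · push_cast at hn
      omega
    · rw [e]
      exact hw
  refine Run7.h469.Tm.few_mono ?_ h2
  intro m h3 n hn h4
  refine h3 ?_ n hn h4
  have h5 : Even ((m : ℕ) : ℤ) := by
    rw [← hn]
    push_cast
    have : (1 : ℤ) * n + (a - b) = n + a - b := by ring
    rw [this]
    exact h4
  exact_mod_cast h5

theorem few_lower (A : ℕ) (a b : ℤ) : Few (7 / 10) (Aff 1 (a - b) (Lower A a b)) := by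
  obtain ⟨N₁, hN1, h1⟩ := LinearSystemsEveryModulus.good_of A a b
  have h2 : Few (7 / 10) (fun m => Even m → Aff 1 (a - b) (Lower A a b) m) := by
    apply Run7.h469.Tm.few_even
    intro ρ hρ B T
    refine Pool.Agent.R460.GS.class_few _ (A + 1) ⟨N₁ + a.natAbs + b.natAbs, ?_⟩ ρ hρ B T
    intro m hm _ hw n hn _ _
    have e : ((n : ℤ) + a - b).toNat = m := by
      have : (n : ℤ) + a - b = m := by
        rw [← hn]
        push_cast
        ring
      rw [this]
      exact Int.toNat_natCast m
    apply h1 n
    · push_cast at hn
      omega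
    · rw [e]
      exact hw
  refine Run7.h469.Tm.few_mono ?_ h2
  intro m h3 n hn h4
  refine h3 ?_ n hn h4
  have h5 : Even ((m : ℕ) : ℤ) := by
    rw [← hn]
    push_cast
    have : (1 : ℤ) * n + (a - b) = n + a - b := by ring
    rw [this]
    exact h4
  exact_mod_cast h5

theorem pos_asymptotic (ε : ℝ) (A : ℕ) (a b : ℤ) (n : ℕ) (h : ((1 : ℕ) : ℤ) * n + (a - b) ≤ 0) :
    Asymptotic ε A a b n := by
  intro _ h1
  exfalso
  push_cast at h
  omega

theorem pos_lower (A : ℕ) (a b : ℤ) (n : ℕ) (h : ((1 : ℕ) : ℤ) * n + (a - b) ≤ 0) :
    Lower A a b n := by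
  intro _ h1
  exfalso
  push_cast at h
  omega

/-- **Values of linear forms and members of linear recurrence sequences.** Let `a`, `b` be integers, `F₁ = x + a`,
`G = x + b`; let `ε, η > 0`, `A`, `B`, `U` be arbitrary and `X` large.
(1) For every family of at most `(log X)^U` linear forms in `d ≥ 1` variables with coefficients at most `X^(2 - η)` and with
greatest common divisors at most `(log X)^U`, and for all vectors in `[1, X]^d` with at most `X^d / (log X)^B` exceptions, all
the admissible values `N > |a| + |b|` of the forms satisfy the predicted asymptotic formula (up to the factor `1 ± ε`, also in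
windows). (2) If the coefficients are only at most `X^(7/3 - η)` they satisfy the lower bounds.
(3), (4) Let `s`, `t` be coprime and positive. For all `(x_0, x_1)` in `[1, X]^2` with at most `X^2 / (log X)^B` exceptions all
the admissible integers `N = u x_k + v > |a| + |b|`, `x_k ≤ X^(3 - η)` (`x_k ≤ X^(10/3 - η)`), `1 ≤ u ≤ (log X)^U`,
`|v| ≤ (log X)^U`, satisfy the asymptotic formula (the lower bounds), where `x_(k+2) = s x_(k+1) + t x_k`. -/
theorem result (a b : ℤ) (ε : ℝ) (hε : 0 < ε) (η : ℝ) (hη : 0 < η) (A B U : ℕ) :
    (∀ d : ℕ, 1 ≤ d → ∃ X₀ : ℕ, ∀ X : ℕ, X₀ ≤ X → ∀ family : Finset ((Fin d → ℤ) × ℤ),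
      (family.card : ℝ) ≤ Real.log X ^ U → (∀ l ∈ family, Admissible (2 - η) U X l.1 l.2) →
        ((exceptionalVectors (Asymptotic ε A a b) X family).card : ℝ) ≤ (X : ℝ) ^ d / Real.log X ^ B) ∧
    (∀ d : ℕ, 1 ≤ d → ∃ X₀ : ℕ, ∀ X : ℕ, X₀ ≤ X → ∀ family : Finset ((Fin d → ℤ) × ℤ),
      (family.card : ℝ) ≤ Real.log X ^ U → (∀ l ∈ family, Admissible (7 / 3 - η) U X l.1 l.2) →
        ((exceptionalVectors (Lower A a b) X family).card : ℝ) ≤ (X : ℝ) ^ d / Real.log X ^ B) ∧
    (∀ s t : ℕ, 1 ≤ s → 1 ≤ t → Nat.Coprime s t → ∃ X₀ : ℕ, ∀ X : ℕ, X₀ ≤ X →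
      ((exceptionalPairs s t (Asymptotic ε A a b) U X ((X : ℝ) ^ (3 - η))).card : ℝ) ≤
        (X : ℝ) ^ 2 / Real.log X ^ B) ∧
    (∀ s t : ℕ, 1 ≤ s → 1 ≤ t → Nat.Coprime s t → ∃ X₀ : ℕ, ∀ X : ℕ, X₀ ≤ X →
      ((exceptionalPairs s t (Lower A a b) U X ((X : ℝ) ^ (10 / 3 - η))).card : ℝ) ≤
        (X : ℝ) ^ 2 / Real.log X ^ B) := by
  refine ⟨fun d hd => ?_, fun d hd => ?_, fun s t hs ht hst => ?_, fun s t hs ht hst => ?_⟩
  · exact vectors_affine hd (2 / 3) (2 - η) η (by norm_num) (by norm_num) hη (by norm_num) 1 le_rfl (a - b) _
      (fun n h => pos_asymptotic ε A a b n h) (few_asymptotic ε hε A a b) B U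
  · exact vectors_affine hd (7 / 10) (7 / 3 - η) η (by norm_num) (by norm_num) hη (by norm_num) 1 le_rfl (a - b) _
      (fun n h => pos_lower A a b n h) (few_lower A a b) B U
  · exact pairs_affine s t hs ht hst (2 / 3) (3 - η) η (by norm_num) (by norm_num) hη (by norm_num) 1 le_rfl (a - b) _
      (fun n h => pos_asymptotic ε A a b n h) (few_asymptotic ε hε A a b) B U
  · exact pairs_affine s t hs ht hst (7 / 10) (10 / 3 - η) η (by norm_num) (by norm_num) hη (by norm_num) 1 le_rfl (a - b)
      _ (fun n h => pos_lower A a b n h) (few_lower A a b) B U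

end Pool.Agent.Results.MP_0bf1d2_nt.LinearFormsAndRecurrences
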