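import Pool.Agent.N625.PT.T
import Pool.Agent.Run7.h844.RP.Poly

/-!
# The asymptotic formula of Schinzel for `q` and `N - m q` prime, with almost prime companions, for the integers near values
of generalised polynomials at primes

Nothing is used besides Mathlib in the statement.

Method: exponential sums over primes with the phase of a generalised polynomial: derivative bounds uniform in the
coefficients, van der Corput differencing of all orders, bilinear sums, Vaughan's identity (after `Pool.Agent.H895R3.NK`,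
`Pool.Agent.H373R2.T7`); a discrete Fejér kernel for the passage from real numbers to their integer parts, and a kernel
estimate for the concentration on short intervals which needs only the large frequencies (library
`Pool.Agent.Run7.h844.RP`, after `Pool.Agent.N384.MQ`, `Pool.Agent.N193.PS`). The large spectrum of all the
multiples is thin, and the passage from such exponential sums to the asymptotic formula is from the starting files, in a
generic form: `Pool.Agent.N625.PT` (`t_gen`, `det_PF`); the elementary lemmas are those of the starting file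
`ExchangeableDigitsAllSlopes`.
-/

set_option autoImplicit false

namespace Pool.Agent.Results.MP_0bf1d2_nt.ValuesAtPrimes

open Finset Polynomial

/-- The generalised polynomial `∑ a x * t ^ x`, `x ∈ F`, with real exponents and coefficients. -/
noncomputable def genPoly (F : Finset ℝ) (a : ℝ → ℝ) (t : ℝ) : ℝ := ∑ x ∈ F, a x * t ^ x

/-- `c` is the largest exponent; it is positive and not an integer, and its coefficient is not zero. -/
def Leading (F : Finset ℝ) (a : ℝ → ℝ) (c : ℝ) : Prop :=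
  c ∈ F ∧ (∀ x ∈ F, x ≤ c) ∧ 0 < c ∧ (∀ m : ℕ, c ≠ m) ∧ a c ≠ 0

variable {g : ℕ}

open Classical in
/-- The number of primes `q ≤ N` such that `N - m q` is prime and no prime `ℓ ≤ y` divides one of the `F_i(q)`; each `q` is
counted with the weight `log q log (N - m q)`. -/
noncomputable def count (F : Fin g → ℤ[X]) (m N y : ℕ) : ℝ :=
  ∑ q ∈ (Icc 1 N).filter (fun q : ℕ => q.Prime ∧ ((N : ℤ) - m * q).toNat.Prime ∧
    ∀ ℓ : ℕ, ℓ.Prime → ℓ ≤ y → ∀ i, ¬ (ℓ : ℤ) ∣ (F i).eval (q : ℤ)), Real.log q * Real.log (((N : ℤ) - m * q : ℤ) : ℝ)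

/-- `ω_N(p)`: the number of residues `r` modulo `p` with `r F_1(r) ... F_g(r) (N - m r) ≡ 0` -/
def omega (F : Fin g → ℤ[X]) (m N p : ℕ) : ℕ :=
  ((range p).filter (fun r : ℕ => (p : ℤ) ∣ (r * ∏ i, (F i).eval (r : ℤ)) * (N - m * r))).card

/-- The expected value: the number `⌊(N - 1) / m⌋` of the positive integers `n` with `N - m n > 0`, times the product of
`(1 - ω_N(p) / p) (1 - 1 / p) ^ (-2)` over the primes `p ≤ y`. -/
noncomputable def expected (F : Fin g → ℤ[X]) (m N y : ℕ) : ℝ :=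
  (((N - 1) / m : ℕ) : ℝ) * ∏ p ∈ (Icc 1 y).filter Nat.Prime, (1 - (omega F m N p : ℝ) / p) / (1 - 1 / (p : ℝ)) ^ 2

/-- `n F_1(n) ... F_g(n) (N - m n)` has no fixed prime divisor -/
def NoFixedDivisor (F : Fin g → ℤ[X]) (m N : ℕ) : Prop :=
  ∀ p : ℕ, p.Prime → ∃ n : ℤ, ¬ (p : ℤ) ∣ (n * ∏ i, (F i).eval n) * (N - m * n)

/-- For ALL the factors `1 ≤ h ≤ H`, ALL the positive integers `N` with `|N - h q| ≤ R` and ALL `1 ≤ m ≤ H`: if
`n F_1(n) ... F_g(n) (N - m n)` has no fixed prime divisor, the weighted number of the primes `q` such that `N - m q` is prime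
and the `F_i(q)` have no prime factor `≤ y` differs from its expected value by at most the fraction `ε`. -/
def Holds (F : Fin g → ℤ[X]) (ε : ℝ) (y : ℕ) (H R : ℝ) (q : ℤ) : Prop :=
  ∀ h : ℕ, 1 ≤ h → (h : ℝ) ≤ H → ∀ N : ℕ, 0 < N → |(N : ℝ) - h * q| ≤ R → ∀ m : ℕ, 1 ≤ m → (m : ℝ) ≤ H →
    NoFixedDivisor F m N → |count F m N y - expected F m N y| ≤ ε * expected F m N y

/-- `Holds` for ALL the integers `q` at a distance of at most `R` from `x`. -/
def Near (F : Fin g → ℤ[X]) (ε : ℝ) (y : ℕ) (H R x : ℝ) : Prop := ∀ q : ℤ, |(q : ℝ) - x| ≤ R → Holds F ε y H R q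

open Pool.Agent.H373R2.T7 Pool.Agent.H373R2.T7.TB Pool.Agent.H373R2.T7.PB

lemma prod_eF (F : Fin g → ℤ[X]) (n : ℤ) : (∏ i, (PArg.eF F i).eval n) = n * ∏ i, (F i).eval n := by
  rw [Fin.prod_univ_succ]
  have h1 : (PArg.eF F 0) = X := by unfold PArg.eF; simp
  have h2 : ∀ i : Fin g, (PArg.eF F (Fin.succ i)) = F i := by intro i; unfold PArg.eF; simp
  simp only [h1, h2, eval_X]

open Classical in
lemma count_eq (F : Fin g → ℤ[X]) (m N y : ℕ) : count F m N y = WP F (C (m : ℤ) * X) N y N := by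
  unfold count WP Rough
  apply sum_congr
  · ext q
    rw [mem_filter, mem_filter, Pool.Agent.N625.PT.GG_ev]
  · intro q _
    rw [Pool.Agent.N625.PT.GG_ev]

lemma omega_eq (F : Fin g → ℤ[X]) (m N p : ℕ) : omega F m N p = omegaN (PArg.eF F) (C (m : ℤ) * X) N p := by
  unfold omega omegaN
  simp only [Pool.Agent.N625.PT.GG_ev, prod_eF]

lemma expected_eq (F : Fin g → ℤ[X]) (m N y : ℕ) : expected F m N y = Pool.Agent.N625.PT.TPF F m N y := by
  unfold expected Pool.Agent.N625.PT.TPF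
  have e : (Vz y)⁻¹ = ∏ p ∈ (Icc 1 y).filter Nat.Prime, (1 - 1 / (p : ℝ))⁻¹ := by
    rw [prod_inv_distrib]
    rfl
  rw [e, mul_assoc, ← prod_mul_distrib]
  congr 1
  apply prod_congr rfl
  intro p _
  rw [omega_eq, pow_two, div_eq_mul_inv, div_eq_mul_inv, mul_inv]
  ring

lemma noFixed_of (F : Fin g → ℤ[X]) (m N : ℕ) (h : NoFixedDivisor F m N) : NoFixed (PArg.eF F) (C (m : ℤ) * X) N := by
  intro p hp
  obtain ⟨n, hn⟩ := h p hp
  refine ⟨n, ?_⟩
  rw [prod_eF, Pool.Agent.N625.PT.GG_ev]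
  exact hn

lemma holds_mono {F : Fin g → ℤ[X]} {ε : ℝ} {y : ℕ} {H H' R R' : ℝ} {q : ℤ} (h : Holds F ε y H' R' q) (hH : H ≤ H')
    (hR : R ≤ R') : Holds F ε y H R q :=
  fun a ha1 ha2 N hN0 hN m hm1 hm2 hNF => h a ha1 (ha2.trans hH) N hN0 (hN.trans hR) m hm1 (hm2.trans hH) hNF

open Classical in
/-- the asymptotic formula for classes of distributions -/
theorem cls_formula (D : ℕ) (ε : ℝ) (hε : 0 < ε) : ∃ K : ℕ, 1 ≤ K ∧ ∀ (g : ℕ) (F : Fin g → ℤ[X]), (∀ i, 1 ≤ (F i).natDegree) →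
    (∀ i, 0 < (F i).leadingCoeff) → ∑ i, (F i).natDegree ≤ D → ∀ C : ℕ → (ℕ → ℝ) → Prop, Pool.Agent.N625.PT.TCls 2 1 C →
    ∀ A J W U : ℕ, ∃ k₀ : ℕ, ∀ k : ℕ, k₀ ≤ k → ∀ y : ℕ, (y ^ K ≤ 2 ^ k ∧ 2 ^ k ≤ y ^ A) → ∀ p : ℕ → ℝ, C k p →
    ∀ c : ℤ, |c| ≤ (2 : ℤ) ^ k →
      ∑ v ∈ range (2 ^ k), (if ∀ q : ℤ, |q - (c + 1 * (v : ℕ))| ≤ ((k : ℕ) : ℤ) ^ W →
        Holds F ε y ((k : ℝ) ^ J) ((k : ℝ) ^ W) q then 0 else p v) ≤ 1 / (k : ℝ) ^ U := by
  obtain ⟨K, hK, hmain⟩ := Pool.Agent.N625.PT.det_PF (D + 1) ε hε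
  refine ⟨2 * K, by omega, fun g F hF hFl hD C hC A J W U => ?_⟩
  have hdet := hmain g F hF hFl (by omega) (J + 1) (2 * A)
  obtain ⟨k₀, hmain2⟩ := Pool.Agent.N625.PT.t_gen hC 1 J W (U + J + 0 + 1) _ _ hdet
  obtain ⟨z0, hz0⟩ : ∃ z0 : ℕ, z0 = 2 ^ (J + 1) := ⟨_, rfl⟩
  refine ⟨k₀ + z0 + 2 * K + 4, fun k hk y ⟨hyK, hyA⟩ p hp c hc => ?_⟩
  have hk2 : 2 ^ (J + 1) ≤ k := by rw [← hz0]; omega
  have hk4 : 4 ≤ k := by omega
  refine Pool.Agent.N625.PT.union J 0 U k (by omega) (2 ^ k) p (hC.nonneg k p hp)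
    (fun m _ v => ¬ ∀ q : ℤ, |q - (c + 1 * (v : ℕ))| ≤ (k : ℤ) ^ W → ∀ h : ℕ, 1 ≤ h → h ≤ k ^ J →
        ∀ N : ℕ, 0 < N → |(N : ℤ) - h * q| ≤ (k : ℤ) ^ W → NoFixedDivisor F m N →
          |count F m N y - expected F m N y| ≤ ε * expected F m N y) _ ?_ ?_
  · intro v hv
    by_contra hcon
    apply hv
    intro q hq h hh1 hh2 N hN0 hN m hm1 hm2 hNF
    by_contra hbad
    apply hcon
    refine ⟨m, hm1, by exact_mod_cast hm2, 0, by simp, ?_⟩
    intro hall
    exact hbad (hall q hq h hh1 (by exact_mod_cast hh2) N hN0 (by exact_mod_cast hN) hNF)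
  · intro m hm1 hm2 _ _
    have hAd : ∀ K' : ℕ, k ≤ K' → K' ≤ 2 * k → Pool.Agent.N625.PT.AdP (J + 1) K (2 * A) (2 ^ K') (m, y) := by
      intro K' hK1 hK2
      refine ⟨hm1, ?_, ?_, ?_⟩
      · simp only
        have hl : (k : ℝ) / 2 ≤ Real.log ((2 ^ K' : ℕ) : ℝ) := by
          push_cast
          rw [Real.log_pow]
          have g1 : (1 : ℝ) / 2 ≤ Real.log 2 := by
            have := Real.log_two_gt_d9
            linarith
          have g2 : (k : ℝ) ≤ K' := by exact_mod_cast hK1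
          have g3 : (0 : ℝ) ≤ k := Nat.cast_nonneg _
          nlinarith
        have hk0 : (0 : ℝ) < k := by exact_mod_cast (by omega : 0 < k)
        calc (m : ℝ) ≤ (k : ℝ) ^ J := by exact_mod_cast hm2
          _ ≤ ((k : ℝ) / 2) ^ (J + 1) := by
              rw [div_pow, le_div_iff₀ (by positivity), pow_succ (k : ℝ)]
              apply mul_le_mul_of_nonneg_left _ (by positivity)
              exact_mod_cast hk2
          _ ≤ Real.log ((2 ^ K' : ℕ) : ℝ) ^ (J + 1) := pow_le_pow_left₀ (by positivity) hl _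
      · simp only
        exact hyK.trans (Nat.pow_le_pow_right (by omega) hK1)
      · simp only
        calc 2 ^ K' ≤ 2 ^ (2 * k) := Nat.pow_le_pow_right (by omega) hK2
          _ = (2 ^ k) ^ 2 := by rw [← pow_mul]; congr 1; ring
          _ ≤ (y ^ A) ^ 2 := Nat.pow_le_pow_left hyA 2
          _ = y ^ (2 * A) := by rw [← pow_mul]; congr 1; ring
    refine le_trans (le_of_eq ?_) (hmain2 k (by omega) p hp c (by rw [Nat.cast_one, one_mul]; exact hc) (m, y) hAd
      (fun v => ∀ q : ℤ, |q - (c + 1 * (v : ℕ))| ≤ (k : ℤ) ^ W → ∀ h : ℕ, 1 ≤ h → h ≤ k ^ J →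
        ∀ N : ℕ, 0 < N → |(N : ℤ) - h * q| ≤ (k : ℤ) ^ W → NoFixedDivisor F m N →
          |count F m N y - expected F m N y| ≤ ε * expected F m N y) ?_)
    · apply sum_congr rfl
      intro v _
      by_cases hv : ∀ q : ℤ, |q - (c + 1 * (v : ℕ))| ≤ (k : ℤ) ^ W → ∀ h : ℕ, 1 ≤ h → h ≤ k ^ J →
        ∀ N : ℕ, 0 < N → |(N : ℤ) - h * q| ≤ (k : ℤ) ^ W → NoFixedDivisor F m N →
          |count F m N y - expected F m N y| ≤ ε * expected F m N y
      · rw [if_neg (not_not.2 hv), if_pos hv]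
      · rw [if_pos hv, if_neg hv]
    intro v hv
    push Not at hv
    obtain ⟨q, hq, h, hh1, hh2, N, hN0, hN, hNF, hbad⟩ := hv
    refine ⟨h, hh1, hh2, q - (c + 1 * (v : ℕ)), hq, (N : ℤ) - h * q, hN, ?_, ?_⟩
    · have e1 : (h : ℤ) * (c + (q - (c + 1 * (v : ℕ))) + 1 * (v : ℕ)) + ((N : ℤ) - h * q) = N := by ring
      rw [e1]
      exact_mod_cast hN0
    · have e1 : (h : ℤ) * (c + (q - (c + 1 * (v : ℕ))) + 1 * (v : ℕ)) + ((N : ℤ) - h * q) = N := by ring
      rw [e1, Int.toNat_natCast]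
      intro hP
      have h5 := hP (noFixed_of F m N hNF)
      simp only at h5
      rw [← count_eq, ← expected_eq] at h5
      linarith

open Classical in
/-- Let `D` and `ε > 0` be given. There is `K` with the following property. Let `F_1, ..., F_g` be any polynomials with
integer coefficients, not constant, with positive leading coefficients and degrees of sum at most `D`. Let `f` be a
generalised polynomial whose largest exponent `c` is positive and not an integer, and let `A`, `J`, `W` and `U` be fixed. Let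
`X` be large, let `z` be any real number with `|z| ≤ X ^ c`, and let `y` be given with `y ^ K ≤ X ^ c ≤ y ^ A`. Then all the
primes `X < p ≤ 2 X`, with at most `X / log ^ U X` exceptions, have the following property for ALL the positive integers
`N` with `|N - h q| ≤ log ^ W X` for some integer `q` with `|q - (f(p) + z)| ≤ log ^ W X` and some `1 ≤ h ≤ log ^ J X`, and
for ALL `1 ≤ m ≤ log ^ J X`: if `n F_1(n) ... F_g(n) (N - m n)` has no fixed prime divisor, the weighted number of the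
primes `q'` such that `N - m q'` is prime and the `F_i(q')` have no prime factor `≤ y` differs from its expected value by at
most the fraction `ε`. -/
theorem result (D : ℕ) (ε : ℝ) (hε : 0 < ε) : ∃ K : ℕ, 1 ≤ K ∧ ∀ (g : ℕ) (F : Fin g → ℤ[X]), (∀ i, 1 ≤ (F i).natDegree) →
    (∀ i, 0 < (F i).leadingCoeff) → ∑ i, (F i).natDegree ≤ D → ∀ (E : Finset ℝ) (a : ℝ → ℝ) (c : ℝ), Leading E a c →
    ∀ A J W U : ℕ, ∃ X₀ : ℕ, ∀ X : ℕ, X₀ ≤ X → ∀ y : ℕ, (y : ℝ) ^ K ≤ (X : ℝ) ^ c → (X : ℝ) ^ c ≤ (y : ℝ) ^ A →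
      ∀ z : ℝ, |z| ≤ (X : ℝ) ^ c →
      (((Ioc X (2 * X)).filter fun p : ℕ => p.Prime ∧
        ¬ Near F ε y (Real.log X ^ J) (Real.log X ^ W) (genPoly E a p + z)).card : ℝ) ≤ X / Real.log X ^ U := by
  obtain ⟨K, hK, hmain⟩ := cls_formula D ε hε
  refine ⟨K, hK, fun g F hF hFl hD E a c ht A J W U => ?_⟩
  obtain ⟨t1, t2, t3, t4, t5⟩ := ht
  obtain ⟨V, N₀, h0⟩ := Pool.Agent.Run7.h844.RP.near2 (Θ := ℕ) 8 (1 / 2) (by norm_num) (by norm_num) (W + 1) (U + 1)
    (fun k y => y ^ K ≤ 2 ^ k ∧ 2 ^ k ≤ y ^ (2 * A)) (fun k y q => Holds F ε y ((k : ℝ) ^ (J + 1)) ((k : ℝ) ^ (W + 2)) q)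
    (fun C hC => hmain g F hF hFl hD C (hC 1 one_ne_zero).2 (2 * A) (J + 1) (W + 2) (U + 1))
  obtain ⟨X₂, h2⟩ := Pool.Agent.Run7.h844.RP.log_cmp (Pool.Agent.Run7.h844.RP.Ac E c a) c
    (Pool.Agent.Run7.h844.RP.Ac_pos E c a) t3 J
  obtain ⟨X₃, h3⟩ := Pool.Agent.Run7.h844.RP.log_cmp (Pool.Agent.Run7.h844.RP.Ac E c a) c
    (Pool.Agent.Run7.h844.RP.Ac_pos E c a) t3 W
  obtain ⟨X₄, h4⟩ := Pool.Agent.Run7.h844.RP.sc_bound E c t3 a 0
  obtain ⟨N₅, h5⟩ := Filter.eventually_atTop.mp ((Pool.Agent.N384.MQ.ev_log_pow 2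
    (9 * (Pool.Agent.Run7.h844.RP.Ac E c a + 1) ^ 2)).and (Pool.Agent.N384.MQ.ev_log_ge 1))
  have hAc := Pool.Agent.Run7.h844.RP.Ac_pos E c a
  obtain ⟨X₀, h6⟩ := Pool.Agent.Run7.h844.RP.primes_nearZ (Θ := ℕ) E c t1 t4 t3 t2 a t5 U W
    (fun N y => y ^ K ≤ N ∧ (N : ℝ) ≤ (Pool.Agent.Run7.h844.RP.Ac E c a + 1) * (y : ℝ) ^ A)
    (fun X y => (y : ℝ) ^ K ≤ (X : ℝ) ^ c ∧ (X : ℝ) ^ c ≤ (y : ℝ) ^ A)
    (fun N y q => Holds F ε y (Real.log N ^ (J + 1)) (Real.log N ^ (W + 1)) q)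
    (fun X y q => Holds F ε y (Real.log X ^ J) (Real.log X ^ W) q)
    ⟨X₂ + X₃ + X₄ + 1, fun X hX y hy => by
      have g2 := (h2 X (by omega)).2.2.1
      have g3 := (h3 X (by omega)).2.2.1
      have g4 := (h4 X (by omega)).1
      have hsc := Pool.Agent.Run7.h844.RP.sc_le _ c hAc t3 X (by omega)
      refine ⟨⟨?_, hsc.trans (mul_le_mul_of_nonneg_left hy.2 (by linarith))⟩, fun q hq => holds_mono hq g2 g3⟩
      have : ((y ^ K : ℕ) : ℝ) ≤ Pool.Agent.Run7.h844.RP.sc (Pool.Agent.Run7.h844.RP.Ac E c a) c X := by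
        push_cast
        exact hy.1.trans g4
      exact_mod_cast this⟩
    ⟨V, N₀ + N₅ + 1, fun N hN y hy ι s x hx hes => by
      obtain ⟨k, g1, g2, g3, g4, g5⟩ := h0 N (by omega)
      obtain ⟨hb, hL⟩ := h5 N (by omega)
      have hN0 : (0 : ℝ) < N := by exact_mod_cast (by omega : 0 < N)
      have hL0 : 0 < Real.log N := by linarith
      refine le_trans ?_ (g5 y ⟨hy.1.trans g3, ?_⟩ ι s x hx hes)
      · apply Pool.Agent.Run7.h844.RP.card_filter_mono'
        intro i _ hi hcon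
        refine hi (Pool.Agent.Run7.h844.RP.nearZ_mono hcon le_rfl fun q hq => holds_mono hq ?_ ?_)
        · exact pow_le_pow_left₀ hL0.le g1 _
        · exact (pow_le_pow_right₀ hL (by omega)).trans (pow_le_pow_left₀ hL0.le g1 (W + 2))
      · have h7 : (2 : ℝ) ^ k ≤ (y : ℝ) ^ (2 * A) := by
          have h8 : (k : ℝ) ^ 2 ≤ (3 * Real.log N) ^ 2 := pow_le_pow_left₀ (Nat.cast_nonneg _) g2 2
          have h9 : (N : ℝ) ^ 2 ≤ ((Pool.Agent.Run7.h844.RP.Ac E c a + 1) * (y : ℝ) ^ A) ^ 2 := pow_le_pow_left₀ hN0.le hy.2 2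
          rw [mul_pow, ← pow_mul, mul_comm A 2] at h9
          have hA0 : 0 < (Pool.Agent.Run7.h844.RP.Ac E c a + 1) ^ 2 := by positivity
          have h10 : (Pool.Agent.Run7.h844.RP.Ac E c a + 1) ^ 2 * (2 : ℝ) ^ k ≤
              (Pool.Agent.Run7.h844.RP.Ac E c a + 1) ^ 2 * (y : ℝ) ^ (2 * A) := by
            refine le_trans ?_ h9
            calc (Pool.Agent.Run7.h844.RP.Ac E c a + 1) ^ 2 * (2 : ℝ) ^ k ≤
                (Pool.Agent.Run7.h844.RP.Ac E c a + 1) ^ 2 * ((3 * Real.log N) ^ 2 * N) := by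
                  apply mul_le_mul_of_nonneg_left _ hA0.le
                  exact g4.trans (mul_le_mul_of_nonneg_right h8 hN0.le)
              _ = (9 * (Pool.Agent.Run7.h844.RP.Ac E c a + 1) ^ 2 * Real.log N ^ 2) * N := by ring
              _ ≤ N * N := mul_le_mul_of_nonneg_right hb hN0.le
              _ = (N : ℝ) ^ 2 := by ring
          exact le_of_mul_le_mul_left h10 hA0
        exact_mod_cast h7⟩
  exact ⟨X₀, fun X hX y hy1 hy2 z hz => h6 X hX y ⟨hy1, hy2⟩ z hz⟩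

end Pool.Agent.Results.MP_0bf1d2_nt.ValuesAtPrimes
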